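import Pool.Agent.Helper49.NF.Goals

/-! Packet NF-DEG: the graph of the pairs swapped by an element of `G`. -/

set_option autoImplicit false

namespace Pool.Agent.Helper33.NF

open Finset
open Pool.Agent.Helper47.SR (Grp mv lev wt)
open Pool.Agent.Helper49.NF

variable {n : ℕ}

/-- some element different from `1` fixes both points -/
def Bad (G : Grp n) (u v : Fin n) : Prop := ∃ γ ∈ G, γ ≠ 1 ∧ γ u = u ∧ γ v = v

/-- some element swaps the two points -/
def Swp (G : Grp n) (u v : Fin n) : Prop := ∃ γ ∈ G, γ u = v ∧ γ v = u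

open Classical in
/-- the indicator of the swapped pairs which are not bad -/
noncomputable def ww (G : Grp n) (y : Finset (Fin n)) : ℕ :=
  if ∃ u v, u ≠ v ∧ y = {u, v} ∧ ¬ Bad G u v ∧ Swp G u v then 1 else 0

theorem bad_symm {G : Grp n} {u v : Fin n} (h : Bad G u v) : Bad G v u := by
  obtain ⟨γ, h1, h2, h3, h4⟩ := h
  exact ⟨γ, h1, h2, h4, h3⟩

theorem swp_symm {G : Grp n} {u v : Fin n} (h : Swp G u v) : Swp G v u := by
  obtain ⟨γ, h1, h2, h3⟩ := h
  exact ⟨γ, h1, h3, h2⟩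

theorem pair_cases {u v a b : Fin n} (h : ({u, v} : Finset (Fin n)) = {a, b}) (huv : u ≠ v) :
    (u = a ∧ v = b) ∨ (u = b ∧ v = a) := by
  have h1 : u ∈ ({a, b} : Finset (Fin n)) := by rw [← h]; simp
  have h2 : v ∈ ({a, b} : Finset (Fin n)) := by rw [← h]; simp
  rw [mem_insert, mem_singleton] at h1 h2
  rcases h1 with h1 | h1 <;> rcases h2 with h2 | h2
  · exact absurd (h1.trans h2.symm) huv
  · exact Or.inl ⟨h1, h2⟩
  · exact Or.inr ⟨h1, h2⟩
  · exact absurd (h1.trans h2.symm) huv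

theorem ww_pair (G : Grp n) {u v : Fin n} (h : u ≠ v) :
    ww G {u, v} = 1 ↔ ¬ Bad G u v ∧ Swp G u v := by
  unfold ww
  constructor
  · intro h1
    split_ifs at h1 with h2
    obtain ⟨a, b, hab, he, h3, h4⟩ := h2
    rcases pair_cases he h with ⟨rfl, rfl⟩ | ⟨rfl, rfl⟩
    · exact ⟨h3, h4⟩
    · exact ⟨fun hb => h3 (bad_symm hb), swp_symm h4⟩
  · rintro ⟨h1, h2⟩
    rw [if_pos ⟨u, v, h, rfl, h1, h2⟩]

theorem ww_le (G : Grp n) (y : Finset (Fin n)) : ww G y ≤ 1 := by
  unfold ww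
  split_ifs <;> omega

theorem mem_els {G : Grp n} {γ : Equiv.Perm (Fin n)} : γ ∈ els G ↔ γ ∈ G := by
  classical
  unfold els
  simp

theorem mem_wt {γ : Equiv.Perm (Fin n)} {u v : Fin n} (huv : u ≠ v)
    (h : mv γ {u, v} = {u, v}) : (γ u = u ∧ γ v = v) ∨ (γ u = v ∧ γ v = u) := by
  have h1 : ({γ u, γ v} : Finset (Fin n)) = {u, v} := by
    rw [← h]
    ext x
    simp [mv]
  have h2 : γ u ≠ γ v := fun h => huv (γ.injective h)
  exact pair_cases h1 h2

/-- two elements which agree on a pair which is not bad are equal -/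
theorem uniq {G : Grp n} {u v : Fin n} (hb : ¬ Bad G u v) {γ δ : Equiv.Perm (Fin n)}
    (hγ : γ ∈ G) (hδ : δ ∈ G) (h1 : γ u = δ u) (h2 : γ v = δ v) : γ = δ := by
  by_contra hne
  refine hb ⟨δ⁻¹ * γ, G.mul_mem (G.inv_mem hδ) hγ, ?_, ?_, ?_⟩
  · intro h
    exact hne (inv_mul_eq_one.1 h).symm
  · rw [Equiv.Perm.mul_apply, h1]
    simp
  · rw [Equiv.Perm.mul_apply, h2]
    simp

theorem wt_nonbad {G : Grp n} {u v : Fin n} (huv : u ≠ v) (hb : ¬ Bad G u v) :
    wt G {u, v} ≤ ww G {u, v} := by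
  classical
  have hsw : ∀ γ : Equiv.Perm (Fin n), γ ∈ G → γ ≠ 1 → mv γ {u, v} = {u, v} →
      γ u = v ∧ γ v = u := by
    intro γ h1 h2 h3
    rcases mem_wt huv h3 with h4 | h4
    · exact absurd ⟨γ, h1, h2, h4.1, h4.2⟩ hb
    · exact h4
  by_cases hS : Swp G u v
  · rw [(ww_pair G huv).2 ⟨hb, hS⟩]
    unfold wt
    refine card_le_one.2 fun γ hγ δ hδ => ?_
    rw [mem_filter] at hγ hδ
    have a1 := hsw γ hγ.2.1 hγ.2.2.1 hγ.2.2.2
    have a2 := hsw δ hδ.2.1 hδ.2.2.1 hδ.2.2.2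
    exact uniq hb hγ.2.1 hδ.2.1 (a1.1.trans a2.1.symm) (a1.2.trans a2.2.symm)
  · have : wt G {u, v} = 0 := by
      unfold wt
      rw [card_eq_zero, filter_eq_empty_iff]
      rintro γ _ ⟨h1, h2, h3⟩
      exact hS ⟨γ, h1, hsw γ h1 h2 h3⟩
    omega

theorem ww_le_wt {G : Grp n} (y : Finset (Fin n)) : ww G y ≤ wt G y := by
  classical
  unfold ww
  split_ifs with h
  · obtain ⟨u, v, huv, rfl, hb, γ, hγ, h1, h2⟩ := h
    unfold wt
    rw [Nat.one_le_iff_ne_zero, Ne, card_eq_zero, filter_eq_empty_iff]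
    intro hc
    refine hc (mem_univ γ) ⟨hγ, ?_, ?_⟩
    · rintro rfl
      exact huv h1
    · ext x
      simp only [mv, map_insert, Equiv.coe_toEmbedding, map_singleton, h1, h2, mem_insert,
        mem_singleton]
      tauto
  · exact Nat.zero_le _

section
variable {K f : ℕ} {G : Grp n}

theorem bad_card (h5 : ∀ u v, #((els G).filter (fun γ => γ u = v)) ≤ K)
    (hf : ∀ γ ∈ G, γ ≠ 1 → fx γ ≤ f) (v : Fin n) (B : Finset (Fin n))
    (hB : ∀ u ∈ B, Bad G u v) : #B ≤ K * f := by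
  classical
  have h1 : B ⊆ ((els G).filter (fun γ => γ v = v ∧ γ ≠ 1)).biUnion
      (fun γ => (univ : Finset (Fin n)).filter (fun x => γ x = x)) := by
    intro u hu
    obtain ⟨γ, a1, a2, a3, a4⟩ := hB u hu
    rw [mem_biUnion]
    exact ⟨γ, mem_filter.2 ⟨mem_els.2 a1, a4, a2⟩, mem_filter.2 ⟨mem_univ _, a3⟩⟩
  have h2 : #((els G).filter (fun γ => γ v = v ∧ γ ≠ 1)) ≤ K := by
    refine le_trans (card_le_card ?_) (h5 v v)
    intro γ hγ
    rw [mem_filter] at hγ ⊢
    exact ⟨hγ.1, hγ.2.1⟩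
  refine (card_le_card h1).trans ((card_biUnion_le_card_mul _ _ f ?_).trans
    (Nat.mul_le_mul_right f h2))
  intro γ hγ
  rw [mem_filter] at hγ
  exact hf γ (mem_els.1 hγ.1) hγ.2.2

theorem sum_ww (v : Fin n) : ∃ T : Finset (Fin n), (∀ u, u ∈ T ↔ u ≠ v ∧ ww G {u, v} = 1) ∧
    ∑ u ∈ univ.erase v, ww G {u, v} = #T := by
  classical
  refine ⟨(univ.erase v).filter (fun u => ww G {u, v} = 1), fun u => ?_, ?_⟩
  · rw [mem_filter, mem_erase]
    constructor
    · rintro ⟨⟨h1, _⟩, h2⟩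
      exact ⟨h1, h2⟩
    · rintro ⟨h1, h2⟩
      exact ⟨⟨h1, mem_univ _⟩, h2⟩
  · rw [card_filter]
    refine sum_congr rfl fun u _ => ?_
    have := ww_le G {u, v}
    split_ifs <;> omega

end

theorem goal_DEG (h1 : Goal_STB) : Goal_DEG := by
  classical
  intro n K f G hG
  obtain ⟨-, -, s3, -, s5⟩ := h1 n K f G hG
  set Inv : Finset (Equiv.Perm (Fin n)) := (els G).filter (fun γ => γ ≠ 1 ∧ γ * γ = 1) with hInv
  refine ⟨ww G, #Inv, ww_le G, fun y _ => ww_le_wt y, ?_, ?_, ?_⟩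
  · intro v
    obtain ⟨T, hT, hsum⟩ := sum_ww (G := G) v
    rw [hsum]
    constructor
    · -- `#T ≤ d`
      have hsel : ∀ u ∈ T, ∃ γ ∈ Inv, γ v = u := by
        intro u hu
        obtain ⟨huv, hw⟩ := (hT u).1 hu
        obtain ⟨hb, γ, hγ, a1, a2⟩ := (ww_pair G huv).1 hw
        refine ⟨γ, mem_filter.2 ⟨mem_els.2 hγ, ?_, ?_⟩, a2⟩
        · rintro rfl
          exact huv a1
        · refine uniq hb (G.mul_mem hγ hγ) G.one_mem ?_ ?_
          · rw [Equiv.Perm.mul_apply, a1, a2, Equiv.Perm.one_apply]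
          · rw [Equiv.Perm.mul_apply, a2, a1, Equiv.Perm.one_apply]
      calc #T ≤ #(Inv.image (fun γ => γ v)) := by
            refine card_le_card fun u hu => ?_
            obtain ⟨γ, a1, a2⟩ := hsel u hu
            exact mem_image.2 ⟨γ, a1, a2⟩
        _ ≤ #Inv := card_image_le
    · -- `d ≤ #T + K + K² f`
      set B : Finset (Fin n) := univ.filter (fun u => u ≠ v ∧ Bad G u v) with hB
      have hBc : #B ≤ K * f := bad_card s5 hG.fix v B
        (fun u hu => (mem_filter.1 hu).2.2)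
      have hsub : Inv ⊆ (Inv.filter (fun γ => γ v = v)) ∪
          ((Inv.filter (fun γ => γ v ∈ B)) ∪ (Inv.filter (fun γ => γ v ∈ T))) := by
        intro γ hγ
        have hγ' := (mem_filter.1 hγ)
        have hγG := mem_els.1 hγ'.1
        have hγγ : γ (γ v) = v := by
          rw [← Equiv.Perm.mul_apply, hγ'.2.2, Equiv.Perm.one_apply]
        rw [mem_union, mem_union]
        by_cases e1 : γ v = v
        · exact Or.inl (mem_filter.2 ⟨hγ, e1⟩)
        · by_cases e2 : Bad G (γ v) v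
          · exact Or.inr (Or.inl (mem_filter.2 ⟨hγ, mem_filter.2 ⟨mem_univ _, e1, e2⟩⟩))
          · refine Or.inr (Or.inr (mem_filter.2 ⟨hγ, (hT _).2 ⟨e1, ?_⟩⟩))
            exact (ww_pair G e1).2 ⟨e2, γ, hγG, hγγ, rfl⟩
      have c1 : #(Inv.filter (fun γ => γ v = v)) ≤ K := by
        refine le_trans (card_le_card ?_) (s5 v v)
        intro γ hγ
        rw [mem_filter] at hγ ⊢
        exact ⟨(mem_filter.1 hγ.1).1, hγ.2⟩
      have c2 : #(Inv.filter (fun γ => γ v ∈ B)) ≤ K * #B := by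
        refine card_le_mul_card_image_of_maps_to (f := fun γ : Equiv.Perm (Fin n) => γ v)
          (t := B) (fun γ hγ => (mem_filter.1 hγ).2) K fun u _ => ?_
        refine le_trans (card_le_card ?_) (s5 v u)
        intro γ hγ
        rw [mem_filter, mem_filter] at hγ
        exact mem_filter.2 ⟨(mem_filter.1 hγ.1.1).1, hγ.2⟩
      have c3 : #(Inv.filter (fun γ => γ v ∈ T)) ≤ #T := by
        refine card_le_card_of_injOn (fun γ : Equiv.Perm (Fin n) => γ v)
          (fun γ hγ => (mem_filter.1 hγ).2) ?_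
        intro γ hγ δ hδ hgd
        have hγ1 := mem_filter.1 (mem_coe.1 hγ)
        have hδ1 := mem_filter.1 (mem_coe.1 hδ)
        have hγ2 := mem_filter.1 hγ1.1
        have hδ2 := mem_filter.1 hδ1.1
        have hgd' : γ v = δ v := hgd
        obtain ⟨huv, hw⟩ := (hT _).1 hγ1.2
        obtain ⟨hb, -⟩ := (ww_pair G huv).1 hw
        have a1 : γ (γ v) = v := by
          rw [← Equiv.Perm.mul_apply, hγ2.2.2, Equiv.Perm.one_apply]
        have a2 : δ (γ v) = v := by
          rw [hgd', ← Equiv.Perm.mul_apply, hδ2.2.2, Equiv.Perm.one_apply]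
        exact uniq hb (mem_els.1 hγ2.1) (mem_els.1 hδ2.1) (a1.trans a2.symm) hgd'
      have c4 := (card_le_card hsub).trans ((card_union_le _ _).trans
        (Nat.add_le_add_left (card_union_le _ _) _))
      have c5 : K * #B ≤ K ^ 2 * f := by
        calc K * #B ≤ K * (K * f) := Nat.mul_le_mul_left _ hBc
          _ = K ^ 2 * f := by ring
      omega
  · intro v
    set B : Finset (Fin n) := (univ.erase v).filter (fun u => Bad G u v) with hB
    have hBc : #B ≤ K * f := bad_card s5 hG.fix v B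
      (fun u hu => (mem_filter.1 hu).2)
    have key : ∀ u ∈ univ.erase v, wt G {u, v} ≤ ww G {u, v} + if Bad G u v then 2 * K else 0 := by
      intro u hu
      have huv : u ≠ v := (mem_erase.1 hu).1
      split_ifs with hb
      · have h := s3 {u, v} ⟨u, by simp⟩
        rw [card_pair huv] at h
        omega
      · rw [add_zero]
        exact wt_nonbad huv hb
    refine (sum_le_sum key).trans ?_
    rw [sum_add_distrib]
    apply Nat.add_le_add_left
    rw [← sum_filter, sum_const, smul_eq_mul]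
    calc #B * (2 * K) ≤ (K * f) * (2 * K) := Nat.mul_le_mul_right _ hBc
      _ = 2 * K ^ 2 * f := by ring
  · intro u v huv hw
    obtain ⟨-, γ, hγ, a1, -⟩ := (ww_pair G huv).1 hw
    exact ⟨γ, hγ, a1⟩

end Pool.Agent.Helper33.NF
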