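import Pool.Agent.Helper49.NF.Goals

/-! Packet NF-N3: the numerical inequalities for the levels `m ≥ 0.47 n`. -/

set_option autoImplicit false

namespace Pool.Agent.Helper33.NF

open Finset
open Pool.Agent.Helper47.SR (Goal_ENT)
open Pool.Agent.Helper49.NF

theorem ent_bound (hE : Goal_ENT) (k : ℕ) (hk : 1 ≤ k) :
    2 ^ (31 * k) ≤ (38 * k + 1) * (38 * k).choose (10 * k) := by
  have h := hE (38 * k) (10 * k) (by omega)
  rw [show 38 * k - 10 * k = 28 * k by omega] at h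
  set C := (38 * k).choose (10 * k) with hC
  have h1 : (38 * k) ^ (38 * k) = (38 ^ 38) ^ k * k ^ (38 * k) := by
    rw [mul_pow, ← pow_mul]
  have h2 : (10 * k) ^ (10 * k) * (28 * k) ^ (28 * k) =
      (10 ^ 10 * 28 ^ 28) ^ k * k ^ (38 * k) := by
    rw [mul_pow 10 k, mul_pow 28 k, mul_pow (10 ^ 10), ← pow_mul, ← pow_mul,
      show 38 * k = 10 * k + 28 * k by ring, pow_add k]
    ac_rfl
  have h3 : 2 ^ 31 * (10 ^ 10 * 28 ^ 28) ≤ 38 ^ 38 := by norm_num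
  have h4 : (2 ^ 31) ^ k * (10 ^ 10 * 28 ^ 28) ^ k ≤ (38 ^ 38) ^ k := by
    rw [← mul_pow]
    exact Nat.pow_le_pow_left h3 k
  rw [h1, mul_assoc C, h2] at h
  have hpos : 0 < (10 ^ 10 * 28 ^ 28) ^ k * k ^ (38 * k) := by positivity
  rw [pow_mul]
  refine Nat.le_of_mul_le_mul_right ?_ hpos
  calc (2 ^ 31) ^ k * ((10 ^ 10 * 28 ^ 28) ^ k * k ^ (38 * k))
      = ((2 ^ 31) ^ k * (10 ^ 10 * 28 ^ 28) ^ k) * k ^ (38 * k) := by ac_rfl
    _ ≤ (38 ^ 38) ^ k * k ^ (38 * k) := Nat.mul_le_mul_right _ h4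
    _ ≤ (38 * k + 1) * (C * ((10 ^ 10 * 28 ^ 28) ^ k * k ^ (38 * k))) := h
    _ = (38 * k + 1) * C * ((10 ^ 10 * 28 ^ 28) ^ k * k ^ (38 * k)) := by ac_rfl

theorem lin_bound (k : ℕ) : 38 * k + 1 ≤ 2 ^ (9 + k / 10) := by
  have h1 : k / 10 < 2 ^ (k / 10) := Nat.lt_two_pow_self
  rw [pow_add]
  have h2 : (2 : ℕ) ^ 9 = 512 := by norm_num
  rw [h2]
  omega

theorem choose_bound (m n k : ℕ) (h1 : 28 * k ≤ m) (h2 : 10 * k ≤ n / 6) :
    (38 * k).choose (10 * k) ≤ (m + n / 6).choose m := by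
  calc (38 * k).choose (10 * k) ≤ (m + 10 * k).choose (10 * k) :=
        Nat.choose_le_choose _ (by omega)
    _ = (m + 10 * k).choose m := by rw [Nat.choose_symm_add]
    _ ≤ (m + n / 6).choose m := Nat.choose_le_choose _ (by omega)

theorem goal_N3 (hE : Goal_ENT) (hX : Goal_N2X) : Goal_N3 := by
  obtain ⟨n1, hn1⟩ := hX
  refine ⟨max n1 6000, fun n hn m K f hm hmn hK hKn hf => ?_⟩
  have hn6 : 6000 ≤ n := le_trans (le_max_right _ _) hn
  have hnn1 : n1 ≤ n := le_trans (le_max_left _ _) hn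
  have h9 : n ^ 9 < m ^ 10 := by
    have e1 : (47 * n) ^ 10 < (100 * m) ^ 10 := Nat.pow_lt_pow_left hm (by norm_num)
    rw [mul_pow, mul_pow] at e1
    have e2 : 100 ^ 10 * n ^ 9 ≤ 47 ^ 10 * n ^ 10 := by
      calc 100 ^ 10 * n ^ 9 ≤ (47 ^ 10 * n) * n ^ 9 :=
            Nat.mul_le_mul_right _ (le_trans (by norm_num) (Nat.mul_le_mul_left (47 ^ 10) hn6))
        _ = 47 ^ 10 * n ^ 10 := by ring
    exact Nat.lt_of_mul_lt_mul_left (lt_of_le_of_lt e2 e1)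
  refine ⟨?_, ?_, h9⟩
  · obtain ⟨h3, -⟩ := hn1 n hnn1 m K f 0 h9 hK hKn hf (Nat.zero_le _)
    obtain ⟨-, t, ht, htm⟩ := hn1 n hnn1 m K f 2 h9 hK hKn hf (by omega)
    have hk : 1 ≤ n / 60 := by omega
    have g1 := ent_bound hE (n / 60) hk
    have g2 := lin_bound (n / 60)
    have g3 := choose_bound m n (n / 60) (by omega) (by omega)
    set k := n / 60 with hkd
    have g4 : 2 ^ (t + n / 2) * (38 * k + 1) ≤ 2 ^ (31 * k) := by
      calc 2 ^ (t + n / 2) * (38 * k + 1) ≤ 2 ^ (t + n / 2) * 2 ^ (9 + k / 10) :=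
            Nat.mul_le_mul_left _ g2
        _ = 2 ^ (t + n / 2 + (9 + k / 10)) := by rw [← pow_add]
        _ ≤ 2 ^ (31 * k) := Nat.pow_le_pow_right (by norm_num) (by omega)
    have g5 : 2 ^ (t + n / 2) ≤ (38 * k).choose (10 * k) := by
      refine Nat.le_of_mul_le_mul_left ?_ (show 0 < 38 * k + 1 by omega)
      calc (38 * k + 1) * 2 ^ (t + n / 2) = 2 ^ (t + n / 2) * (38 * k + 1) := mul_comm _ _
        _ ≤ _ := g4.trans g1
    have g6 : 128 * (n + 1) * Bb n K f m 2 ≤ 2 ^ (t + n / 2) := by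
      unfold Bb
      calc 128 * (n + 1) * (4 ^ f * (K * n) ^ (2 + 1) * (n + 1) ^ 2 * (n / 2).choose (m / 2))
          = (128 * (n + 1) * (4 ^ f * (K * n) ^ (2 + 1) * (n + 1) ^ 2)) *
            (n / 2).choose (m / 2) := by ring
        _ ≤ 2 ^ t * 2 ^ (n / 2) := Nat.mul_le_mul ht (Nat.choose_le_two_pow _ _)
        _ = 2 ^ (t + n / 2) := by rw [← pow_add]
    exact g6.trans (g5.trans g3)
  · obtain ⟨h3, -⟩ := hn1 n hnn1 m K f 0 h9 hK hKn hf (Nat.zero_le _)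
    obtain ⟨-, t, ht, htm⟩ := hn1 n hnn1 m K f 3 h9 hK hKn hf h3
    unfold Bb
    calc 64 * (4 ^ f * (K * n) ^ (3 + 1) * (n + 1) ^ 2 * (n / 3).choose (m / 3))
        ≤ (128 * (n + 1) * (4 ^ f * (K * n) ^ (3 + 1) * (n + 1) ^ 2)) *
            (n / 3).choose (m / 3) := by
          rw [← mul_assoc]
          refine Nat.mul_le_mul_right _ (Nat.mul_le_mul_right _ ?_)
          omega
      _ ≤ 2 ^ t * 2 ^ (n / 3) := Nat.mul_le_mul ht (Nat.choose_le_two_pow _ _)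
      _ = 2 ^ (t + n / 3) := by rw [← pow_add]
      _ ≤ 2 ^ (m + 1) := Nat.pow_le_pow_right (by norm_num) (by omega)

end Pool.Agent.Helper33.NF
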